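import Pool.Agent.R866.Topple.Main

/-!
# MP_424b19_co: Max-start versus Min-start toppling game values (full positive answer)

On every connected graph which is not a tree the Max-start value of the toppling game is even and
the Min-start value is odd (Min always makes the last move); in particular the two values differ.
-/

namespace Pool.Agent.Results.MP_424b19_co.TopplingGame

open Pool.Agent.R866.Topple

/-- **Full answer to MP_424b19_co (the conjecture is true).**  Let `G` be a finite connected graph
which is not a tree.  Then `Tmax G ≠ Tmin G`; more precisely `Tmax G` is even and `Tmin G` is odd.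
The statement also records that `Tmax G` and `Tmin G` are the values of the two games (Max can
ensure at least that many turns and Min can ensure at most that many turns) and that the toppling
phase is well defined (its stopping and its final configuration do not depend on the order). -/
theorem result {V : Type*} [Fintype V] [DecidableEq V] (G : SimpleGraph V) [DecidableRel G.Adj]
    (hconn : G.Connected) (hcycle : ¬ G.IsTree) :
    Tmax G ≠ Tmin G ∧ Even (Tmax G) ∧ Odd (Tmin G) ∧
      (Lasts G (Tmax G) true 0 ∧ Ends G (Tmax G) true 0) ∧
      (Lasts G (Tmin G) false 0 ∧ Ends G (Tmin G) false 0) ∧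
      (∀ c s t, StopsAt G c s → StopsAt G c t → s = t) ∧
      (∀ c s, StopsAt G c s →
        ¬ ∃ f : ℕ → (V → ℕ), f 0 = c ∧ ∀ i, Step G (f i) (f (i + 1))) := by
  have : Nonempty V := hconn.nonempty
  obtain ⟨a, b, hab, hnb⟩ := exists_nonbridge hconn hcycle
  -- the empty configuration is stable
  have hdeg : ∀ v, 0 < G.degree v := by
    intro v
    rw [SimpleGraph.degree_pos_iff_exists_adj]
    by_cases hva : v = a
    · exact ⟨b, by rw [hva]; exact hab⟩
    · obtain ⟨p⟩ := hconn.preconnected v a
      cases p with
      | nil => exact absurd rfl hva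
      | cons h _ => exact ⟨_, h⟩
  have h0 : Stable G (0 : V → ℕ) := fun v => hdeg v
  -- and it is not the full configuration
  have hne : (0 : V → ℕ) ≠ fun v => G.degree v - 1 := by
    intro h
    have h1 := congrFun h a
    simp only [Pi.zero_apply] at h1
    have h2 : 2 ≤ G.degree a := by
      obtain ⟨p⟩ := hnb
      cases p with
      | nil => exact absurd rfl hab.ne
      | @cons _ u _ hu _ =>
        rw [SimpleGraph.sdiff_adj, SimpleGraph.fromEdgeSet_adj] at hu
        have hbu : b ≠ u := by
          rintro rfl
          exact hu.2 ⟨by simp, hab.ne⟩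
        rw [← G.card_neighborFinset_eq_degree a]
        have : ({b, u} : Finset V) ⊆ G.neighborFinset a := by
          intro x hx
          simp only [Finset.mem_insert, Finset.mem_singleton] at hx
          rw [SimpleGraph.mem_neighborFinset]
          rcases hx with rfl | rfl
          · exact hab
          · exact hu.1
        calc 2 = ({b, u} : Finset V).card := (Finset.card_pair hbu).symm
          _ ≤ _ := Finset.card_le_card this
    omega
  have gmax := isGreatest_sSup true h0
  have gmin := isGreatest_sSup false h0
  have hmax : Lasts G (Tmax G) true 0 := gmax.1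
  have hmin : Lasts G (Tmin G) false 0 := gmin.1
  have hmaxE : Even (Tmax G) := by
    by_contra hodd
    rw [Nat.not_even_iff_odd] at hodd
    obtain ⟨k, hk⟩ := hodd
    have h1 : Lasts G (2 * k + 1) true 0 := by rw [← hk]; exact hmax
    have h2 := (parity hconn hcycle k).1 0 h0 hne h1
    have h3 : 2 * k + 2 ≤ Tmax G := gmax.2 (Set.mem_ofPred.2 h2)
    omega
  have hminO : Odd (Tmin G) := by
    by_contra heven
    rw [Nat.not_odd_iff_even] at heven
    obtain ⟨k, hk⟩ := heven
    have hk' : Tmin G = 2 * k := by omega
    have h1 : Lasts G (2 * k) false 0 := by rw [← hk']; exact hmin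
    have h2 := (parity hconn hcycle k).2 0 h0 h1
    have h3 : 2 * k + 1 ≤ Tmin G := gmin.2 (Set.mem_ofPred.2 h2)
    omega
  refine ⟨?_, hmaxE, hminO, ⟨hmax, ?_⟩, ⟨hmin, ?_⟩, fun c s t hs ht => stops_unique hs ht,
    fun c s hs => no_infinite hs⟩
  · intro h
    rw [h] at hmaxE
    exact (Nat.not_even_iff_odd.2 hminO) hmaxE
  · rw [ends_iff]
    intro h
    have : Tmax G + 1 ≤ Tmax G := gmax.2 (Set.mem_ofPred.2 h)
    omega
  · rw [ends_iff]
    intro h
    have : Tmin G + 1 ≤ Tmin G := gmin.2 (Set.mem_ofPred.2 h)
    omega

end Pool.Agent.Results.MP_424b19_co.TopplingGame
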